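import Pool.Agent.Lib_helper71.LSPM2.DEF4
import Pool.Agent.Lib_helper41.LSP2.Defs2
import Pool.Agent.Lib_helper68.LEV.MRT

/-! LSP2, part M2: the band, and the quadratic form of a sum. -/

set_option autoImplicit false

namespace Pool.Agent.LSP

open Pool.Agent.LEV Pool.Agent.LVB Pool.Agent.KSL
open Pool.Agent.FG61 (mu phi cc ff AA Lam)
open Filter Topology

/-- Mertens on the band -/
theorem band_sum_pr : ∃ C : ℝ, 1 ≤ C ∧ ∀ κ v : ℝ, 0 < κ → 1000 * κ ≤ v → v ≤ 1 / 80 → ∃ X₀ : ℕ,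
    ∀ X : ℕ, X₀ ≤ X → ∑ p ∈ PB κ v X, 1 / (p : ℝ) ≤ C := by
  obtain ⟨C, hC⟩ := LEV.mertens_two
  have hC0 : 0 ≤ C := (abs_nonneg _).trans (hC 2 le_rfl)
  refine ⟨2 * C + 2, by linarith, fun κ v h0 h1 h2 => ?_⟩
  have hv : 0 < v := by linarith
  have hev : ∀ᶠ X : ℕ in atTop, 10 / v ≤ Real.log X :=
    (Real.tendsto_log_atTop.comp tendsto_natCast_atTop_atTop).eventually_ge_atTop _
  obtain ⟨X₀, hX₀⟩ := eventually_atTop.1 hev
  refine ⟨max X₀ 1, fun X hX => ?_⟩
  have hX1 : (1 : ℝ) ≤ X := by exact_mod_cast (le_max_right _ _).trans hX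
  have hX0 : (0 : ℝ) < X := by linarith
  have hL := hX₀ X ((le_max_left _ _).trans hX)
  set L := Real.log X with hLd
  rw [div_le_iff₀ hv] at hL
  have hl2 : Real.log 2 ≤ 1 := by
    have := Real.log_two_lt_d9
    linarith
  have hl20 : 0 < Real.log 2 := Real.log_pos (by norm_num)
  have hl4 : Real.log 4 = 2 * Real.log 2 := by
    rw [show (4 : ℝ) = 2 ^ 2 by norm_num, Real.log_pow]; norm_num
  set y1 := (X : ℝ) ^ v / 4 with hy1
  set y2 := 2 * (X : ℝ) ^ (v + κ) with hy2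
  have hXv : 0 < (X : ℝ) ^ v := by positivity
  have hXvk : 0 < (X : ℝ) ^ (v + κ) := by positivity
  have hly1 : Real.log y1 = v * L - Real.log 4 := by
    rw [hy1, Real.log_div hXv.ne' (by norm_num), Real.log_rpow hX0]
  have hly2 : Real.log y2 = Real.log 2 + (v + κ) * L := by
    rw [hy2, Real.log_mul (by norm_num) hXvk.ne', Real.log_rpow hX0]
  have hLv : L * v = v * L := mul_comm _ _
  have hl1a : v * L / 2 ≤ Real.log y1 := by rw [hly1, hl4]; linarith
  have hL0 : 0 ≤ L := Real.log_nonneg hX1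
  have hl2a : Real.log y2 ≤ 2 * (v * L) := by
    rw [hly2]
    have : κ * L ≤ v / 1000 * L := mul_le_mul_of_nonneg_right (by linarith) hL0
    nlinarith
  have hy1p : 0 < y1 := by positivity
  have hy12 : 2 ≤ y1 := by
    have h5 : 1 ≤ Real.log y1 := by linarith
    have h6 : Real.exp 1 ≤ y1 := (Real.le_log_iff_exp_le hy1p).1 h5
    have h7 := Real.exp_one_gt_d9
    linarith
  have hXle : (X : ℝ) ^ v ≤ (X : ℝ) ^ (v + κ) :=
    Real.rpow_le_rpow_of_exponent_le hX1 (by linarith)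
  have hy22 : y1 ≤ y2 := by rw [hy1, hy2]; linarith
  have a1 := hC y1 hy12
  have a2 := hC y2 (hy12.trans hy22)
  rw [abs_le] at a1 a2
  have hsub : (Finset.Icc 1 ⌊y1⌋₊).filter Nat.Prime ⊆ (Finset.Icc 1 ⌊y2⌋₊).filter Nat.Prime := by
    intro p hp
    rw [Finset.mem_filter, Finset.mem_Icc] at hp ⊢
    exact ⟨⟨hp.1.1, hp.1.2.trans (Nat.floor_le_floor hy22)⟩, hp.2⟩
  have hsd := Finset.sum_sdiff (f := fun p : ℕ => 1 / (p : ℝ)) hsub
  have hle : ∑ p ∈ PB κ v X, 1 / (p : ℝ) ≤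
      ∑ p ∈ (Finset.Icc 1 ⌊y2⌋₊).filter Nat.Prime \ (Finset.Icc 1 ⌊y1⌋₊).filter Nat.Prime,
        1 / (p : ℝ) := by
    refine Finset.sum_le_sum_of_subset_of_nonneg (fun p hp => ?_) (fun _ _ _ => by positivity)
    unfold PB at hp
    rw [Finset.mem_filter, Finset.mem_Icc] at hp
    rw [Finset.mem_sdiff, Finset.mem_filter, Finset.mem_filter, Finset.mem_Icc, Finset.mem_Icc]
    refine ⟨⟨hp.1, hp.2.1⟩, fun h => ?_⟩
    have h5 : (p : ℝ) ≤ y1 := (Nat.le_floor_iff hy1p.le).1 h.1.2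
    have h6 := hp.2.2
    rw [hy1] at h5
    linarith
  have hll : Real.log (Real.log y2) - Real.log (Real.log y1) ≤ 2 := by
    have h5 : 0 < Real.log y1 := by linarith
    have h6 : 0 < Real.log y2 := by
      rw [hly2]
      have : 0 ≤ (v + κ) * L := by positivity
      linarith
    rw [← Real.log_div h6.ne' h5.ne']
    have h7 : Real.log y2 / Real.log y1 ≤ 4 := by
      rw [div_le_iff₀ h5]
      linarith
    calc Real.log (Real.log y2 / Real.log y1) ≤ Real.log 4 :=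
          Real.log_le_log (by positivity) h7
      _ ≤ 2 := by rw [hl4]; linarith
  linarith

theorem wd_lin (B : ℕ) (V V' : ℕ → ℝ) (t : ℝ) (q : ℕ) :
    wd B (fun d => V d - t * V' d) q = wd B V q - t * wd B V' q := by
  unfold wd
  rw [Finset.mul_sum, ← Finset.sum_sub_distrib]
  refine Finset.sum_congr rfl fun d _ => ?_
  split_ifs <;> ring

theorem lg_lin (V V' : ℕ → ℝ) (t : ℝ) :
    lg (fun d => V d - t * V' d) = fun d => lg V d - t * lg V' d := by
  ext d
  unfold lg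
  ring

theorem QF_lin (B : ℕ) (h : ℕ → ℝ) (V V' W W' : ℕ → ℝ) (t : ℝ) :
    QF B h (fun d => V d - t * V' d) (fun d => W d - t * W' d) =
      QF B h V W - t * QF B h V W' - t * QF B h V' W + t ^ 2 * QF B h V' W' := by
  unfold QF
  simp only [wd_lin]
  rw [Finset.mul_sum, Finset.mul_sum, Finset.mul_sum, ← Finset.sum_sub_distrib,
    ← Finset.sum_sub_distrib, ← Finset.sum_add_distrib]
  exact Finset.sum_congr rfl fun q _ => by ring

theorem QF_comm (B : ℕ) (h : ℕ → ℝ) (V V' : ℕ → ℝ) : QF B h V V' = QF B h V' V := by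
  unfold QF
  exact Finset.sum_congr rfl fun q _ => by ring

/-- the general bound applied to a sum of two vectors, in `V` coordinates -/
theorem bf_poly_pr (B : ℕ) (L : ℝ) (V V' : ℕ → ℝ) (t : ℝ) :
    BF B L (fun d => V d - t * V' d) =
      BFb B L V V - 2 * t * BFb B L V V' + t ^ 2 * BFb B L V' V' := by
  unfold BF BFb
  rw [lg_lin, QF_lin, QF_lin, QF_lin, QF_comm B phi V' V, QF_comm B phL V' V,
    QF_comm B phi (lg V) V, QF_comm B phi (lg V') V', QF_comm B phi (lg V) V']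
  ring

/-- linearity in the second vector -/
theorem wd_VZ' (B : ℕ) (P : Finset ℕ) (θ : ℕ → ℝ) (V : ℕ → ℝ) (q : ℕ) :
    wd B (VZ P θ V) q = ∑ p ∈ P, θ p * wd B (VT p V) q := by
  unfold wd VZ
  simp only [Finset.mul_sum]
  rw [Finset.sum_comm]
  refine Finset.sum_congr rfl fun d _ => ?_
  split_ifs
  · rfl
  · simp

theorem wd_lgVZ' (B : ℕ) (P : Finset ℕ) (θ : ℕ → ℝ) (V : ℕ → ℝ) (q : ℕ) :
    wd B (lg (VZ P θ V)) q = ∑ p ∈ P, θ p * wd B (lg (VT p V)) q := by
  unfold wd VZ lg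
  simp only [Finset.mul_sum]
  rw [Finset.sum_comm]
  refine Finset.sum_congr rfl fun d _ => ?_
  split_ifs
  · rw [Finset.sum_mul]
    exact Finset.sum_congr rfl fun p _ => by ring
  · simp

theorem BFb_VZ (B : ℕ) (L : ℝ) (V : ℕ → ℝ) (P : Finset ℕ) (θ V' : ℕ → ℝ) :
    BFb B L V (VZ P θ V') = ∑ p ∈ P, θ p * BFb B L V (VT p V') := by
  have h : ∀ (hh : ℕ → ℝ) (W : ℕ → ℝ), QF B hh W (VZ P θ V') =
      ∑ p ∈ P, θ p * QF B hh W (VT p V') := by
    intro hh W
    unfold QF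
    simp only [wd_VZ', Finset.mul_sum]
    rw [Finset.sum_comm]
    exact Finset.sum_congr rfl fun p _ => Finset.sum_congr rfl fun q _ => by ring
  have h' : ∀ (hh : ℕ → ℝ) (W : ℕ → ℝ), QF B hh W (lg (VZ P θ V')) =
      ∑ p ∈ P, θ p * QF B hh W (lg (VT p V')) := by
    intro hh W
    unfold QF
    simp only [wd_lgVZ', Finset.mul_sum]
    rw [Finset.sum_comm]
    exact Finset.sum_congr rfl fun p _ => Finset.sum_congr rfl fun q _ => by ring
  unfold BFb
  rw [h phi V, h phL V, h' phi V, h phi (lg V), Finset.mul_sum, Finset.mul_sum, Finset.mul_sum,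
    Finset.mul_sum, ← Finset.sum_add_distrib, ← Finset.sum_sub_distrib, ← Finset.sum_sub_distrib]
  exact Finset.sum_congr rfl fun p _ => by ring

/-- the diagonal forms of a difference -/
theorem QF_sub_le {h : ℕ → ℝ} (hh : ∀ q, 0 ≤ h q) (B : ℕ) (V V' : ℕ → ℝ) (t : ℝ) :
    QF B h (fun d => V d - t * V' d) (fun d => V d - t * V' d) ≤
      2 * QF B h V V + 2 * t ^ 2 * QF B h V' V' := by
  unfold QF
  simp only [wd_lin]
  rw [Finset.mul_sum, Finset.mul_sum, ← Finset.sum_add_distrib]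
  refine Finset.sum_le_sum fun q _ => ?_
  have := hh q
  nlinarith [mul_nonneg this (sq_nonneg (wd B V q + t * wd B V' q))]

end Pool.Agent.LSP
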