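import Pool.Agent.Lib_helper31.LSPM2.FIA

/-! LSP2, part M2: the absolute sums and the numerical part of the main term. -/

set_option autoImplicit false

namespace Pool.Agent.LSP

open Pool.Agent.LEV Pool.Agent.LVB Pool.Agent.KSL
open Pool.Agent.FG61 (mu phi cc ff AA Lam)
open Filter Topology

/-- the absolute sum is a positive form -/
theorem aV_eq (B : ℕ) (V : ℕ → ℝ) :
    aV B V = QF B phi (fun d => |V d|) (fun d => |V d|) := by
  rw [← QF_eq]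
  unfold aV
  refine Finset.sum_congr rfl fun d hd => Finset.sum_congr rfl fun e he => ?_
  rw [Finset.mem_Icc] at hd he
  congr 1
  have hg : 0 < Nat.gcd d e := Nat.gcd_pos_of_pos_left e hd.1
  have h1 : ∑ u ∈ Finset.Icc 1 B, (if u ∣ d ∧ u ∣ e then phi u else 0) =
      ∑ u ∈ (Nat.gcd d e).divisors, phi u := by
    rw [← Finset.sum_filter]
    refine Finset.sum_congr ?_ fun _ _ => rfl
    ext u
    rw [Finset.mem_filter, Finset.mem_Icc, Nat.mem_divisors, Nat.dvd_gcd_iff]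
    constructor
    · rintro ⟨-, h⟩
      exact ⟨h, hg.ne'⟩
    · rintro ⟨h, -⟩
      exact ⟨⟨Nat.pos_of_dvd_of_pos h.1 hd.1, (Nat.le_of_dvd hd.1 h.1).trans hd.2⟩, h⟩
  rw [h1]
  have h2 := Nat.sum_totient (Nat.gcd d e)
  unfold phi
  rw [← Nat.cast_sum, h2]

theorem aV_sub_le (B : ℕ) (V V' : ℕ → ℝ) {t : ℝ} (ht : 0 ≤ t) :
    aV B (fun d => V d - t * V' d) ≤ 2 * aV B V + 2 * t ^ 2 * aV B V' := by
  rw [aV_eq, aV_eq, aV_eq]
  unfold QF
  rw [Finset.mul_sum, Finset.mul_sum, ← Finset.sum_add_distrib]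
  refine Finset.sum_le_sum fun q _ => ?_
  have hphi : 0 ≤ phi q := by unfold phi; positivity
  have h0 : ∀ W : ℕ → ℝ, 0 ≤ wd B (fun d => |W d|) q := by
    intro W
    unfold wd
    exact Finset.sum_nonneg fun d _ => by split_ifs <;> positivity
  have h1 : wd B (fun d => |V d - t * V' d|) q ≤
      wd B (fun d => |V d|) q + t * wd B (fun d => |V' d|) q := by
    unfold wd
    rw [Finset.mul_sum, ← Finset.sum_add_distrib]
    refine Finset.sum_le_sum fun d _ => ?_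
    split_ifs
    · refine (abs_sub _ _).trans ?_
      rw [abs_mul, abs_of_nonneg ht]
    · simp
  have h2 := h0 (fun d => V d - t * V' d)
  have h3 := h0 V
  have h4 := h0 V'
  set a := wd B (fun d => |V d - t * V' d|) q
  set b := wd B (fun d => |V d|) q
  set c := wd B (fun d => |V' d|) q
  have h5 : a * a ≤ 2 * (b * b) + 2 * t ^ 2 * (c * c) := by
    have h6 : a * a ≤ (b + t * c) * (b + t * c) := mul_le_mul h1 h1 h2 (by positivity)
    nlinarith [sq_nonneg (b - t * c)]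
  calc phi q * (a * a) ≤ phi q * (2 * (b * b) + 2 * t ^ 2 * (c * c)) :=
        mul_le_mul_of_nonneg_left h5 hphi
    _ = 2 * (phi q * (b * b)) + 2 * t ^ 2 * (phi q * (c * c)) := by ring

theorem fin_num1 {L LN L0 κ₁ e : ℝ} (hκ0 : 0 ≤ κ₁) (hκ : κ₁ ≤ 1 / 1000) (he : 0 < e) (he1 : e ≤ 1)
    (hL : 40 / e ≤ L) (h1 : LN ≤ L + 3) (h2 : (1 / 2 - κ₁) * L - 1 ≤ L0) (h0 : 0 < L0) :
    LN / L0 + 2 ≤ 4 + 8 * κ₁ + e := by
  rw [div_le_iff₀ he] at hL
  have h3 : LN ≤ (2 + 8 * κ₁ + e) * L0 := by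
    have h4 : (2 + 8 * κ₁ + e) * ((1 / 2 - κ₁) * L - 1) ≤ (2 + 8 * κ₁ + e) * L0 :=
      mul_le_mul_of_nonneg_left h2 (by linarith)
    have hL0 : 0 ≤ L := by
      by_contra h
      push Not at h
      nlinarith
    have h5 : L + L * e * (1 / 4) ≤ (2 + 8 * κ₁ + e) * ((1 / 2 - κ₁) * L) := by
      have h6 : 1 + e * (1 / 4) ≤ (2 + 8 * κ₁ + e) * (1 / 2 - κ₁) := by nlinarith
      have := mul_le_mul_of_nonneg_right h6 hL0
      nlinarith
    nlinarith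
  have h7 : LN / L0 ≤ 2 + 8 * κ₁ + e := by
    rw [div_le_iff₀ h0]
    exact h3
  linarith

theorem fin_num2 {L LN L0 L1 lp κ κ₁ v e : ℝ} (hκ0 : 0 < κ) (hκ : κ ≤ 1 / 1000) (hκ1 : 0 ≤ κ₁)
    (hv : 1000 * κ ≤ v) (hv' : v ≤ 1 / 80)
    (he : 0 < e) (he1 : e ≤ 1) (hL : 40 / e ≤ L) (hLk : 4 / κ ≤ L)
    (h1 : L - 2 ≤ LN) (h2 : L0 ≤ (1 / 2 - κ₁) * L + 1) (h0 : 0 < L0)
    (h3 : (1 / 2 - v + κ) * L - 1 ≤ L1) (h4 : L1 ≤ (1 / 2 - v + κ) * L + 1)
    (h5 : v * L - 1 ≤ lp) (h6 : lp ≤ (v + κ) * L + 1) :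
    4 * (lp / L1) + 4 * κ - e ≤
      LN / L0 * ((L1 - L0 + lp) / L1) + lp / L1 * (LN / L0 + 2) := by
  rw [div_le_iff₀ he] at hL
  rw [div_le_iff₀ hκ0] at hLk
  have hL40 : 40 ≤ L := by
    by_contra h
    push Not at h
    nlinarith
  have hLp : 0 < L := by linarith
  have hvL : 4 ≤ (v - κ) * L := by nlinarith
  have hL1up : L1 ≤ L / 2 := by nlinarith
  have hL1lo : L / 4 ≤ L1 := by nlinarith
  have hL1 : 0 < L1 := by linarith
  have hlp0 : 0 ≤ lp := by nlinarith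
  have hlp1 : lp / L1 ≤ 1 := by
    rw [div_le_one hL1]
    nlinarith
  have hlpd : 0 ≤ lp / L1 := by positivity
  -- the first quotient
  have hr : 2 - 8 / L ≤ LN / L0 := by
    rw [le_div_iff₀ h0]
    have h7 : L0 ≤ L / 2 + 1 := by nlinarith
    have h8 : 0 ≤ 2 - 8 / L := by
      have : 8 / L ≤ 2 := by rw [div_le_iff₀ hLp]; linarith
      linarith
    calc (2 - 8 / L) * L0 ≤ (2 - 8 / L) * (L / 2 + 1) := mul_le_mul_of_nonneg_left h7 h8
      _ = L + 2 - 4 - 8 / L := by field_simp; ring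
      _ ≤ L - 2 := by
          have : 0 ≤ 8 / L := by positivity
          linarith
      _ ≤ LN := h1
  have hq : 2 * κ - 6 / L ≤ (L1 - L0 + lp) / L1 := by
    rw [le_div_iff₀ hL1]
    have h7 : κ * L - 3 ≤ L1 - L0 + lp := by
      have : 0 ≤ κ₁ * L := by positivity
      nlinarith
    have h8 : 0 ≤ 2 * κ - 6 / L := by
      have : 6 / L ≤ 2 * κ := by
        rw [div_le_iff₀ hLp]
        nlinarith
      linarith
    calc (2 * κ - 6 / L) * L1 ≤ (2 * κ - 6 / L) * (L / 2) := mul_le_mul_of_nonneg_left hL1up h8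
      _ = κ * L - 3 := by field_simp; ring
      _ ≤ _ := h7
  have h8L : 8 / L ≤ 1 / 5 := by rw [div_le_iff₀ hLp]; linarith
  have hq0 : 0 ≤ (L1 - L0 + lp) / L1 := by
    have : 6 / L ≤ 2 * κ := by
      rw [div_le_iff₀ hLp]
      nlinarith
    linarith
  have h9 : (2 - 8 / L) * (2 * κ - 6 / L) ≤ LN / L0 * ((L1 - L0 + lp) / L1) := by
    have h10 : (2 - 8 / L) * (2 * κ - 6 / L) ≤ (2 - 8 / L) * ((L1 - L0 + lp) / L1) :=
      mul_le_mul_of_nonneg_left hq (by linarith)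
    exact h10.trans (mul_le_mul_of_nonneg_right hr hq0)
  have h11 : lp / L1 * (4 - 8 / L) ≤ lp / L1 * (LN / L0 + 2) :=
    mul_le_mul_of_nonneg_left (by linarith) hlpd
  have h12 : (2 - 8 / L) * (2 * κ - 6 / L) = 4 * κ - (16 * κ + 12) / L + 48 / L ^ 2 := by
    field_simp
    ring
  have h13 : 0 ≤ 48 / L ^ 2 := by positivity
  have h14 : (16 * κ + 12) / L ≤ 13 / L := div_le_div_of_nonneg_right (by linarith) hLp.le
  have h15 : lp / L1 * (8 / L) ≤ 8 / L := mul_le_of_le_one_left (by positivity) hlp1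
  have h16 : 21 / L ≤ e := by
    rw [div_le_iff₀ hLp]
    linarith
  have h17 : 13 / L + 8 / L = 21 / L := by ring
  nlinarith

/-- the algebra of the main term -/
theorem fin_alg {C Cz Cb K e0 η e κ κ₁ t S s ell D ZZ U F c : ℝ} (hCz : 1 ≤ Cz) (hCb : 1 ≤ Cb)
    (hK : K = (Cb + 1) * Cb) (he0 : 0 ≤ e0) (hη : 0 ≤ η) (he : 0 ≤ e) (hκ : 0 < κ) (hκ₁ : 0 ≤ κ₁)
    (ht0 : 0 ≤ t) (ht1 : t ≤ 1) (hS : 0 ≤ S) (hSC : S ≤ Cb) (hell : ell = 1 - t * s)
    (hC : C = 8 + 112 * Cz * (1 + K) + 8 * Cz * (Cb + 1))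
    (hD : D ≤ 4 + 8 * κ₁ + 2 * e) (hc : 4 * s + 4 * κ * S - 2 * e * S ≤ c)
    (hZZ : ZZ ≤ 8 * Cz * ((Cb + 1) * S))
    (hU : U ≤ 2 * Cz + 2 * Cz * ((Cb + 1) * S)) (hF : F ≤ e) :
    D - 2 * t * c + t ^ 2 * ZZ + (56 * e0 + η) * U + F ≤
      4 * ell ^ 2 - 8 * t * κ * S + C * (κ₁ + e0) + C * t ^ 2 * S +
        (2 * η * Cz * (1 + K) + 4 * e * (1 + Cb)) := by
  have hUK : U ≤ 2 * Cz * (1 + K) := by
    have h1 : 2 * Cz * ((Cb + 1) * S) ≤ 2 * Cz * ((Cb + 1) * Cb) := by gcongr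
    rw [hK]
    linarith
  have h1 : (56 * e0 + η) * U ≤ (56 * e0 + η) * (2 * Cz * (1 + K)) :=
    mul_le_mul_of_nonneg_left hUK (by positivity)
  have hK0 : 0 ≤ K := by rw [hK]; positivity
  have h2 : 112 * Cz * (1 + K) * e0 ≤ C * e0 := by
    refine mul_le_mul_of_nonneg_right ?_ he0
    rw [hC]
    have : 0 ≤ 8 * Cz * (Cb + 1) := by positivity
    linarith
  have h3 : 8 * κ₁ ≤ C * κ₁ := by
    refine mul_le_mul_of_nonneg_right ?_ hκ₁
    rw [hC]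
    have : 0 ≤ 8 * Cz * (Cb + 1) := by positivity
    have : 0 ≤ 112 * Cz * (1 + K) := by positivity
    linarith
  have h4 : t ^ 2 * ZZ ≤ C * t ^ 2 * S := by
    have h5 : t ^ 2 * ZZ ≤ t ^ 2 * (8 * Cz * ((Cb + 1) * S)) :=
      mul_le_mul_of_nonneg_left hZZ (sq_nonneg t)
    have h6 : 8 * Cz * (Cb + 1) ≤ C := by
      rw [hC]
      have : 0 ≤ 112 * Cz * (1 + K) := by positivity
      linarith
    have h7 : 8 * Cz * (Cb + 1) * (t ^ 2 * S) ≤ C * (t ^ 2 * S) :=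
      mul_le_mul_of_nonneg_right h6 (by positivity)
    linarith
  have h5 : 4 - 8 * (t * s) ≤ 4 * ell ^ 2 := by
    rw [hell]
    nlinarith [sq_nonneg (t * s)]
  have h6 : 2 * t * (4 * s + 4 * κ * S - 2 * e * S) ≤ 2 * t * c :=
    mul_le_mul_of_nonneg_left hc (by positivity)
  have h7 : 4 * (t * (e * S)) ≤ 4 * (e * Cb) := by
    have h8 : t * (e * S) ≤ 1 * (e * Cb) := by
      refine mul_le_mul ht1 ?_ (by positivity) (by norm_num)
      exact mul_le_mul_of_nonneg_left hSC he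
    linarith
  nlinarith

end Pool.Agent.LSP
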