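import Pool.Agent.Lib_helper31.LSPM2.FIB
import Pool.Agent.Lib_helper71.LSPM2.RMD

/-! LSP2, part M2: the sizes of the parameters. -/

set_option autoImplicit false

namespace Pool.Agent.LSP

open Pool.Agent.LEV Pool.Agent.LVB Pool.Agent.KSL
open Pool.Agent.FG61 (mu phi cc ff AA Lam)
open Filter Topology

/-- the bound for the rough factor -/
noncomputable def B2 (κ : ℝ) (X : ℕ) : ℕ := ⌊(X : ℝ) ^ (1 / 2 + 5 / 2 * κ)⌋₊

/-- powers of `X` are large -/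
theorem fin_pow {c : ℝ} (hc : 0 < c) (M : ℝ) : ∃ X₀ : ℕ, ∀ X : ℕ, X₀ ≤ X → M ≤ (X : ℝ) ^ c :=
  eventually_atTop.1 (((tendsto_rpow_atTop hc).comp
    tendsto_natCast_atTop_atTop).eventually_ge_atTop M)

theorem fin_log (M : ℝ) : ∃ X₀ : ℕ, ∀ X : ℕ, X₀ ≤ X → M ≤ Real.log X :=
  eventually_atTop.1 ((Real.tendsto_log_atTop.comp
    tendsto_natCast_atTop_atTop).eventually_ge_atTop M)

/-- the primes of the band -/
theorem fin_band {κ κ₁ v : ℝ} (hκ : 0 < κ) (hv : 1000 * κ ≤ v) (hv' : v ≤ 1 / 80) (hκ₁ : 0 < κ₁)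
    (hκ₁' : κ₁ ≤ κ) : ∃ X₀ : ℕ, ∀ X : ℕ, X₀ ≤ X → 3 ≤ X ∧ 2 ≤ MM κ₁ X ∧ 2 ≤ MM (v - κ) X ∧
      |Real.log (MM κ₁ X) - (1 / 2 - κ₁) * Real.log X| ≤ 1 ∧
      |Real.log (MM (v - κ) X) - (1 / 2 - v + κ) * Real.log X| ≤ 1 ∧
      2 * MM κ₁ X ≤ B2 κ X ∧ 2 * MM (v - κ) X ≤ B2 κ X ∧ B2 κ X ≤ X ∧ 2 ≤ B2 κ X ∧
      ∀ p ∈ PB κ v X, p.Prime ∧ zz X < p ∧ p ≤ X ∧ p * (2 * MM (v - κ) X) ≤ B2 κ X ∧
        (X : ℝ) ^ v ≤ 4 * p ∧ (p : ℝ) ≤ (X : ℝ) ^ (1 / 4 - (v - κ) / 2) ∧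
        Real.log (MM κ₁ X) ≤ Real.log (MM (v - κ) X) + Real.log p ∧
        v * Real.log X - 1 ≤ Real.log p ∧ Real.log p ≤ (v + κ) * Real.log X + 1 := by
  have hv0 : 0 < v := by linarith
  have hvk : 0 < v - κ := by linarith
  obtain ⟨N₁, hN₁⟩ := sizesM (δ := κ₁) (by linarith) (by linarith) (ε := v / 2) (by linarith)
  obtain ⟨N₂, hN₂⟩ := sizesM (δ := v - κ) (by linarith) (by linarith) (ε := v / 2) (by linarith)
  obtain ⟨N₃, hN₃⟩ := fin_pow (c := κ / 2) (by linarith) 8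
  obtain ⟨N₄, hN₄⟩ := fin_log (4 / κ)
  refine ⟨max (max N₁ N₂) (max N₃ N₄), fun X hX => ?_⟩
  obtain ⟨a1, a2, a3, a4, -, -, a7, -, -⟩ := hN₁ X
    ((le_max_left _ _).trans ((le_max_left _ _).trans hX))
  obtain ⟨-, -, b3, -, -, -, b7, -, -⟩ := hN₂ X
    ((le_max_right _ _).trans ((le_max_left _ _).trans hX))
  have c1 := hN₃ X ((le_max_left _ _).trans ((le_max_right _ _).trans hX))
  have c2 := hN₄ X ((le_max_right _ _).trans ((le_max_right _ _).trans hX))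
  have hX1 : (1 : ℝ) ≤ X := by exact_mod_cast (show 1 ≤ 3 by norm_num).trans a1
  have hX0 : (0 : ℝ) < X := by linarith
  have hL : 4 ≤ κ * Real.log X := by
    rw [div_le_iff₀ hκ] at c2
    linarith
  have hL0 : 0 ≤ Real.log X := Real.log_nonneg hX1
  set L := Real.log (X : ℝ) with hLd
  have hmono : ∀ {a b : ℝ}, a ≤ b → (X : ℝ) ^ a ≤ (X : ℝ) ^ b := fun h =>
    Real.rpow_le_rpow_of_exponent_le hX1 h
  have hpos : ∀ a : ℝ, 0 < (X : ℝ) ^ a := fun a => Real.rpow_pos_of_pos hX0 a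
  have hl2 : Real.log 2 ≤ 1 := by
    have := Real.log_two_lt_d9
    linarith
  have hl20 : 0 < Real.log 2 := Real.log_pos (by norm_num)
  have hBX : B2 κ X ≤ X := by
    unfold B2
    have h1 : (X : ℝ) ^ (1 / 2 + 5 / 2 * κ) ≤ (X : ℝ) ^ (1 : ℝ) := hmono (by linarith)
    rw [Real.rpow_one] at h1
    exact_mod_cast (Nat.floor_le (hpos _).le).trans h1
  have hM0 : (MM κ₁ X : ℝ) ≤ (X : ℝ) ^ (1 / 2 - κ₁) := Nat.floor_le (hpos _).le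
  have hM1 : (MM (v - κ) X : ℝ) ≤ (X : ℝ) ^ (1 / 2 - (v - κ)) := Nat.floor_le (hpos _).le
  have hlow : 8 * (X : ℝ) ^ (1 / 2 : ℝ) ≤ (X : ℝ) ^ (1 / 2 + 5 / 2 * κ) := by
    have h1 : (X : ℝ) ^ (1 / 2 + 5 / 2 * κ) =
        (X : ℝ) ^ (κ / 2) * (X : ℝ) ^ (1 / 2 + 2 * κ) := by
      rw [← Real.rpow_add hX0]
      congr 1
      ring
    rw [h1]
    exact mul_le_mul c1 (hmono (by linarith)) (hpos _).le (hpos _).le
  have k1 : 2 * MM κ₁ X ≤ B2 κ X := by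
    refine Nat.le_floor ?_
    push_cast
    have h1 : (X : ℝ) ^ (1 / 2 - κ₁) ≤ (X : ℝ) ^ (1 / 2 : ℝ) := hmono (by linarith)
    have h2 := hpos (1 / 2 : ℝ)
    linarith
  have k2 : 2 * MM (v - κ) X ≤ B2 κ X := by
    refine Nat.le_floor ?_
    push_cast
    have h1 : (X : ℝ) ^ (1 / 2 - (v - κ)) ≤ (X : ℝ) ^ (1 / 2 : ℝ) := hmono (by linarith)
    have h2 := hpos (1 / 2 : ℝ)
    linarith
  have hMM0 : 2 ≤ MM κ₁ X := by omega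
  have hMM1 : 2 ≤ MM (v - κ) X := by omega
  have hve : v / 2 ≤ 1 := by linarith
  have e0 : |Real.log (MM κ₁ X) - (1 / 2 - κ₁) * L| ≤ 1 := a7.trans hve
  have e1 : |Real.log (MM (v - κ) X) - (1 / 2 - v + κ) * L| ≤ 1 := by
    have h1 : (1 / 2 - (v - κ)) * Real.log X = (1 / 2 - v + κ) * L := by rw [hLd]; ring
    rw [h1] at b7
    exact b7.trans hve
  refine ⟨a1, hMM0, hMM1, e0, e1, k1, k2, hBX, by omega, fun p hp => ?_⟩
  unfold PB at hp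
  rw [Finset.mem_filter, Finset.mem_Icc] at hp
  obtain ⟨⟨-, hp1⟩, hpp, hp2⟩ := hp
  have hp3 : (p : ℝ) ≤ 2 * (X : ℝ) ^ (v + κ) :=
    (Nat.le_floor_iff (by have := hpos (v + κ); positivity)).1 hp1
  have hp0 : (0 : ℝ) < p := by exact_mod_cast hpp.pos
  have hlp1 : v * L - 1 ≤ Real.log p := by
    have h1 : Real.log ((X : ℝ) ^ v / 2) ≤ Real.log p :=
      Real.log_le_log (by have := hpos v; positivity) hp2
    rw [Real.log_div (hpos v).ne' (by norm_num), Real.log_rpow hX0] at h1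
    linarith
  have hlp2 : Real.log p ≤ (v + κ) * L + 1 := by
    have h1 := Real.log_le_log hp0 hp3
    rw [Real.log_mul (by norm_num) (hpos _).ne', Real.log_rpow hX0] at h1
    linarith
  have hp4 : (p : ℝ) ≤ (X : ℝ) ^ (1 / 4 - (v - κ) / 2) := by
    have h1 : (X : ℝ) ^ (κ / 2) * (X : ℝ) ^ (v + κ) = (X : ℝ) ^ (κ / 2 + (v + κ)) :=
      (Real.rpow_add hX0 _ _).symm
    have h2 : (X : ℝ) ^ (κ / 2 + (v + κ)) ≤ (X : ℝ) ^ (1 / 4 - (v - κ) / 2) :=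
      hmono (by linarith)
    have h3 : 2 * (X : ℝ) ^ (v + κ) ≤ (X : ℝ) ^ (κ / 2) * (X : ℝ) ^ (v + κ) :=
      mul_le_mul_of_nonneg_right (by linarith) (hpos _).le
    linarith
  have hpX : p ≤ X := by
    have h1 : (X : ℝ) ^ (1 / 4 - (v - κ) / 2) ≤ (X : ℝ) ^ (1 : ℝ) := hmono (by linarith)
    rw [Real.rpow_one] at h1
    exact_mod_cast hp4.trans h1
  have hzp : zz X < p := by
    have h1 : (X : ℝ) ^ v = (X : ℝ) ^ (v / 2) * (X : ℝ) ^ (v / 2) := by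
      rw [← Real.rpow_add hX0]
      congr 1
      ring
    have h2 : (8 : ℝ) ≤ (X : ℝ) ^ (v / 2) := c1.trans (hmono (by linarith))
    have h3 : (zz X : ℝ) < p := by
      have h4 : (X : ℝ) ^ (v / 2) * 8 ≤ (X : ℝ) ^ v := by
        rw [h1]
        exact mul_le_mul_of_nonneg_left h2 (hpos _).le
      have h5 := hpos (v / 2)
      linarith
    exact_mod_cast h3
  refine ⟨hpp, hzp, hpX, ?_, ?_, hp4, ?_, hlp1, hlp2⟩
  · refine Nat.le_floor ?_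
    push_cast
    have h1 : (p : ℝ) * (2 * MM (v - κ) X) ≤
        (2 * (X : ℝ) ^ (v + κ)) * (2 * (X : ℝ) ^ (1 / 2 - (v - κ))) :=
      mul_le_mul hp3 (by linarith) (by positivity) (by have := hpos (v + κ); positivity)
    have h2 : (X : ℝ) ^ (v + κ) * (X : ℝ) ^ (1 / 2 - (v - κ)) = (X : ℝ) ^ (1 / 2 + 2 * κ) := by
      rw [← Real.rpow_add hX0]
      congr 1
      ring
    have h3 : (X : ℝ) ^ (1 / 2 + 5 / 2 * κ) =
        (X : ℝ) ^ (κ / 2) * (X : ℝ) ^ (1 / 2 + 2 * κ) := by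
      rw [← Real.rpow_add hX0]
      congr 1
      ring
    have h4 : 4 * (X : ℝ) ^ (1 / 2 + 2 * κ) ≤ (X : ℝ) ^ (κ / 2) * (X : ℝ) ^ (1 / 2 + 2 * κ) :=
      mul_le_mul_of_nonneg_right (by linarith) (hpos _).le
    rw [h3]
    calc (p : ℝ) * (2 * MM (v - κ) X) ≤
          (2 * (X : ℝ) ^ (v + κ)) * (2 * (X : ℝ) ^ (1 / 2 - (v - κ))) := h1
      _ = 4 * ((X : ℝ) ^ (v + κ) * (X : ℝ) ^ (1 / 2 - (v - κ))) := by ring
      _ = 4 * (X : ℝ) ^ (1 / 2 + 2 * κ) := by rw [h2]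
      _ ≤ _ := h4
  · have := hpos v
    linarith
  · rw [abs_le] at e0 e1
    have h1 : (1 / 2 - κ₁) * L ≤ 1 / 2 * L := by
      have : 0 ≤ κ₁ * L := by positivity
      linarith
    have h2 : (1 / 2 - v + κ) * L + v * L = 1 / 2 * L + κ * L := by ring
    linarith

/-- the length of the whole mollifier -/
theorem fin_len {κ : ℝ} (hκ : 0 < κ) (hκ' : κ ≤ 1 / 80) : ∃ X₀ : ℕ, ∀ X : ℕ, X₀ ≤ X →
    (∀ ε₂ : ℝ, 0 < ε₂ → ε₂ ≤ κ / 4 → KA ε₂ X * B2 κ X ≤ E2 κ X ∧ 1 ≤ KA ε₂ X ∧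
      (KA ε₂ X : ℝ) ≤ (X : ℝ) ^ ε₂) ∧ E2 κ X ≤ X ∧
    (∀ N : ℕ, N ≤ 8 * X → N ≤ 4 * E2 κ X ^ 2) ∧
    ((B2 κ X : ℝ) / E2 κ X) ^ 2 ≤ 4 * (X : ℝ) ^ (-κ) := by
  obtain ⟨N₁, hN₁⟩ := fin_pow hκ 8
  refine ⟨max N₁ 1, fun X hX => ?_⟩
  have c1 := hN₁ X ((le_max_left _ _).trans hX)
  have hX1 : (1 : ℝ) ≤ X := by exact_mod_cast (le_max_right _ _).trans hX
  have hX0 : (0 : ℝ) < X := by linarith
  have hmono : ∀ {a b : ℝ}, a ≤ b → (X : ℝ) ^ a ≤ (X : ℝ) ^ b := fun h =>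
    Real.rpow_le_rpow_of_exponent_le hX1 h
  have hpos : ∀ a : ℝ, 0 < (X : ℝ) ^ a := fun a => Real.rpow_pos_of_pos hX0 a
  have hone : ∀ {a : ℝ}, 0 ≤ a → 1 ≤ (X : ℝ) ^ a := fun h => Real.one_le_rpow hX1 h
  have hE0 : (E2 κ X : ℝ) ≤ (X : ℝ) ^ (1 / 2 + 3 * κ) := Nat.floor_le (hpos _).le
  have hE1 : (X : ℝ) ^ (1 / 2 + 3 * κ) / 2 ≤ E2 κ X := by
    have h1 := Nat.lt_floor_add_one ((X : ℝ) ^ (1 / 2 + 3 * κ))
    have h2 : (2 : ℝ) ≤ (X : ℝ) ^ (1 / 2 + 3 * κ) := by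
      have : (8 : ℝ) ≤ (X : ℝ) ^ (1 / 2 + 3 * κ) := c1.trans (hmono (by linarith))
      linarith
    unfold E2
    linarith
  have hB : (B2 κ X : ℝ) ≤ (X : ℝ) ^ (1 / 2 + 5 / 2 * κ) := Nat.floor_le (hpos _).le
  refine ⟨fun ε₂ h0 h1 => ?_, ?_, fun N hN => ?_, ?_⟩
  · have hK : (KA ε₂ X : ℝ) ≤ (X : ℝ) ^ ε₂ := Nat.floor_le (hpos _).le
    refine ⟨?_, ?_, hK⟩
    · refine Nat.le_floor ?_
      push_cast
      have h2 : (KA ε₂ X : ℝ) * B2 κ X ≤ (X : ℝ) ^ ε₂ * (X : ℝ) ^ (1 / 2 + 5 / 2 * κ) :=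
        mul_le_mul hK hB (Nat.cast_nonneg _) (hpos _).le
      rw [← Real.rpow_add hX0] at h2
      exact h2.trans (hmono (by linarith))
    · unfold KA
      rw [Nat.one_le_floor_iff]
      exact hone h0.le
  · have h1 : (X : ℝ) ^ (1 / 2 + 3 * κ) ≤ (X : ℝ) ^ (1 : ℝ) := hmono (by linarith)
    rw [Real.rpow_one] at h1
    exact_mod_cast hE0.trans h1
  · have h1 : (N : ℝ) ≤ 8 * X := by exact_mod_cast hN
    have h2 : 8 * (X : ℝ) ≤ ((X : ℝ) ^ (1 / 2 + 3 * κ)) ^ 2 := by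
      have h3 : ((X : ℝ) ^ (1 / 2 + 3 * κ)) ^ 2 = (X : ℝ) ^ (6 * κ) * X := by
        rw [← Real.rpow_natCast, ← Real.rpow_mul hX0.le]
        nth_rw 3 [← Real.rpow_one (X : ℝ)]
        rw [← Real.rpow_add hX0]
        congr 1
        push_cast
        ring
      rw [h3]
      have h4 : (8 : ℝ) ≤ (X : ℝ) ^ (6 * κ) := c1.trans (hmono (by linarith))
      exact mul_le_mul_of_nonneg_right h4 hX0.le
    have h5 : ((X : ℝ) ^ (1 / 2 + 3 * κ)) ^ 2 ≤ 4 * (E2 κ X : ℝ) ^ 2 := by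
      have h6 := hpos (1 / 2 + 3 * κ)
      have h7 : (X : ℝ) ^ (1 / 2 + 3 * κ) ≤ 2 * E2 κ X := by linarith
      calc ((X : ℝ) ^ (1 / 2 + 3 * κ)) ^ 2 ≤ (2 * (E2 κ X : ℝ)) ^ 2 :=
            pow_le_pow_left₀ h6.le h7 2
        _ = 4 * (E2 κ X : ℝ) ^ 2 := by ring
    have h6 : (N : ℝ) ≤ ((4 * E2 κ X ^ 2 : ℕ) : ℝ) := by
      push_cast
      linarith
    exact_mod_cast h6
  · have hEp : (0 : ℝ) < E2 κ X := lt_of_lt_of_le (by have := hpos (1 / 2 + 3 * κ); positivity) hE1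
    have h1 : (B2 κ X : ℝ) / E2 κ X ≤ 2 * (X : ℝ) ^ (-(κ / 2)) := by
      rw [div_le_iff₀ hEp]
      have h2 : (X : ℝ) ^ (1 / 2 + 5 / 2 * κ) =
          (X : ℝ) ^ (-(κ / 2)) * (X : ℝ) ^ (1 / 2 + 3 * κ) := by
        rw [← Real.rpow_add hX0]
        congr 1
        ring
      have h3 := mul_le_mul_of_nonneg_left hE1 (hpos (-(κ / 2))).le
      rw [h2] at hB
      linarith
    calc ((B2 κ X : ℝ) / E2 κ X) ^ 2 ≤ (2 * (X : ℝ) ^ (-(κ / 2))) ^ 2 :=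
          pow_le_pow_left₀ (by positivity) h1 2
      _ = 4 * (X : ℝ) ^ (-κ) := by
          rw [mul_pow, ← Real.rpow_natCast ((X : ℝ) ^ (-(κ / 2))), ← Real.rpow_mul hX0.le]
          norm_num

/-- the logarithms of the third term -/
theorem fin_decay {κ : ℝ} (hκ : 0 < κ) (M : ℝ) {e : ℝ} (he : 0 < e) : ∃ X₀ : ℕ, ∀ X : ℕ,
    X₀ ≤ X → M * ((X : ℝ) ^ (-κ) * Real.log X ^ 10) ≤ e := by
  have h1 : Tendsto (fun x : ℝ => Real.log x ^ 10 / x ^ κ) atTop (𝓝 0) := by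
    have := isLittleO_log_rpow_rpow_atTop (s := κ) 10 hκ
    have h2 := this.tendsto_div_nhds_zero
    refine h2.congr fun x => ?_
    norm_num
  have h2 := (h1.comp tendsto_natCast_atTop_atTop).const_mul M
  rw [mul_zero] at h2
  obtain ⟨X₀, hX₀⟩ := eventually_atTop.1 (h2.eventually_le_const he)
  refine ⟨X₀, fun X hX => ?_⟩
  refine le_trans (le_of_eq ?_) (hX₀ X hX)
  simp only [Function.comp]
  rw [Real.rpow_neg (Nat.cast_nonneg X), div_eq_mul_inv, mul_comm (Real.log (X : ℝ) ^ 10)]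

end Pool.Agent.LSP
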