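import Pool.Agent.Lib_helper31.LSPM2.FIC
import Pool.Agent.Lib_helper14.LSPM2.VTA
import Pool.Agent.Lib_helper15.LSP2.BIE
import Pool.Agent.Lib_helper15.LSP2.SQF
import Pool.Agent.Lib_helper68.LSP2.VZB

/-! LSP2, part M2: the main term. -/

set_option autoImplicit false

namespace Pool.Agent.LSP

open Pool.Agent.LEV Pool.Agent.LVB Pool.Agent.KSL
open Pool.Agent.FG61 (mu phi cc ff AA Lam)
open Filter Topology

/-- the size of the sum over the band -/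
theorem fin_Th {P : Finset ℕ} {θ : ℕ → ℝ} (hθ : ∀ p ∈ P, 0 ≤ θ p ∧ θ p ≤ 1) {Cb : ℝ}
    (hCb : ∑ p ∈ P, 1 / (p : ℝ) ≤ Cb) : 0 ≤ ∑ p ∈ P, θ p / p ∧ ∑ p ∈ P, θ p / p ≤ Cb ∧
      Th P θ ≤ (Cb + 1) * ∑ p ∈ P, θ p / p := by
  have h0 : 0 ≤ ∑ p ∈ P, θ p / (p : ℝ) :=
    Finset.sum_nonneg fun p hp => div_nonneg (hθ p hp).1 (Nat.cast_nonneg p)
  have h1 : ∑ p ∈ P, θ p / (p : ℝ) ≤ Cb := by
    refine le_trans (Finset.sum_le_sum fun p hp => ?_) hCb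
    exact div_le_div_of_nonneg_right (hθ p hp).2 (Nat.cast_nonneg p)
  refine ⟨h0, h1, ?_⟩
  have h2 : ∑ p ∈ P, |θ p| / (p : ℝ) = ∑ p ∈ P, θ p / (p : ℝ) :=
    Finset.sum_congr rfl fun p hp => by rw [abs_of_nonneg (hθ p hp).1]
  have h3 : ∑ p ∈ P, θ p ^ 2 / (p : ℝ) ≤ ∑ p ∈ P, θ p / (p : ℝ) := by
    refine Finset.sum_le_sum fun p hp => div_le_div_of_nonneg_right ?_ (Nat.cast_nonneg p)
    obtain ⟨h4, h5⟩ := hθ p hp
    nlinarith
  unfold Th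
  rw [h2]
  nlinarith

/-- the mollifier in coordinates -/
theorem fin_x2 {κ v κ₁ t : ℝ} {X B : ℕ} {θ a : ℕ → ℝ} (h0 : 2 * MM κ₁ X ≤ B)
    (h1 : ∀ p ∈ PB κ v X, p.Prime ∧ zz X < p ∧ p * (2 * MM (v - κ) X) ≤ B) :
    x2 κ v κ₁ t X θ a = xV (zz X) B (fun d => YE κ₁ X d - t *
      VZ (PB κ v X) θ (YE (v - κ) X) d) a ∧
    RVec (zz X) B (YE κ₁ X) ∧ RVec (zz X) B (VZ (PB κ v X) θ (YE (v - κ) X)) ∧
    RVec (zz X) B (fun d => YE κ₁ X d - t * VZ (PB κ v X) θ (YE (v - κ) X) d) := by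
  have r0 : RVec (zz X) (2 * MM κ₁ X) (YE κ₁ X) := RVec_yE (by norm_num)
  have r1 : RVec (zz X) (2 * MM (v - κ) X) (YE (v - κ) X) := RVec_yE (by norm_num)
  have r0' : RVec (zz X) B (YE κ₁ X) := fun d hd =>
    ⟨(r0 d hd).1, (r0 d hd).2.1, (r0 d hd).2.2.trans h0⟩
  have r1' : RVec (zz X) B (VZ (PB κ v X) θ (YE (v - κ) X)) := RVec_VZ_pr θ r1 h1
  refine ⟨?_, r0', r1', fun d hd => ?_⟩
  · ext e
    have e1 := xV_lin_pr (zz X) B (YE κ₁ X) (VZ (PB κ v X) θ (YE (v - κ) X)) a 1 (-t) e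
    have e2 : (fun d => 1 * YE κ₁ X d + -t * VZ (PB κ v X) θ (YE (v - κ) X) d) =
        fun d => YE κ₁ X d - t * VZ (PB κ v X) θ (YE (v - κ) X) d := by
      ext d
      ring
    rw [e2] at e1
    rw [e1, ← xV_mono_pr r0 h0 e, ← xV_YT_pr θ r1 h1 e]
    unfold x2 y0 y1
    rw [xX_eq_xV, xX_eq_xV]
    unfold YE
    ring_nf
  · by_contra hne
    have hc : YE κ₁ X d = 0 ∧ VZ (PB κ v X) θ (YE (v - κ) X) d = 0 := by
      constructor
      · by_contra h2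
        exact hne (r0' d h2)
      · by_contra h2
        exact hne (r1' d h2)
    apply hd
    show YE κ₁ X d - t * VZ (PB κ v X) θ (YE (v - κ) X) d = 0
    rw [hc.1, hc.2]
    ring

/-- the sum over the band is small against its size -/
theorem fin_ZZ {B X : ℕ} (hBX : B ≤ X) (hX : 3 ≤ X) {LN : ℝ} (hLN : LN ≤ 2 * Real.log X)
    (V : ℕ → ℝ) : BFb B LN V V ≤
      8 * (Real.log X * QF B phi V V + QF B phi (lg V) (lg V) / Real.log X) := by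
  have hL : 0 < Real.log X := Real.log_pos (by exact_mod_cast (show 1 < 3 by norm_num).trans_le hX)
  have h1 := QF_phL_le hBX V
  have h2 := QF_cross_le B hL V (lg V)
  have h3 : 0 ≤ QF B phi V V := QF_nonneg phi_nonneg' B V
  have h4 : 0 ≤ QF B phi (lg V) (lg V) := QF_nonneg phi_nonneg' B (lg V)
  have h5 : 0 ≤ QF B phi (lg V) (lg V) / Real.log X := by positivity
  have h6 := neg_abs_le (QF B phi V (lg V))
  have h7 : QF B phi (lg V) V = QF B phi V (lg V) := QF_comm B phi (lg V) V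
  have h8 : LN * QF B phi V V ≤ 2 * Real.log X * QF B phi V V :=
    mul_le_mul_of_nonneg_right hLN h3
  have h9 : 0 ≤ Real.log X * QF B phi V V := by positivity
  unfold BFb
  rw [h7]
  linarith

/-- **the main term** -/
theorem m2_main_pr (C₀ : ℝ) {v : ℝ} (hv : 0 < v) (hv' : v ≤ 1 / 80) : ∃ C : ℝ, 1 ≤ C ∧
    ∀ {T : ℝ} {ρ : ℝ → ℝ}, KerL T ρ → ∀ {g : ℝ → ℝ}
    {G : ℝ}, Kg g G → (∀ u, 0 < u → ‖kh ρ u‖ ^ 2 + ‖kh ρ (-u)‖ ^ 2 ≤ g u) →
    ∫ u in Set.Ioi (0 : ℝ), g u ≤ 1 → ∀ κ κ₁ : ℝ, 0 < κ → 1000 * κ ≤ v →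
    0 < κ₁ → κ₁ ≤ κ → ∀ ε : ℝ, 0 < ε →
    ∃ ε₁ : ℝ, 0 < ε₁ ∧ ∀ ε₂ : ℝ, 0 < ε₂ → ε₂ ≤ ε₁ → ∃ X₀ : ℕ, ∀ X : ℕ, X₀ ≤ X →
    ∀ a : ℕ → ℝ, Sht (zz X) (KA ε₂ X) a → cn (zz X) (KA ε₂ X) a ≤ C₀ →
    ∀ N : ℕ, X ≤ 4 * N → N ≤ 8 * X →
    ∀ θ : ℕ → ℝ, (∀ p ∈ PB κ v X, 0 ≤ θ p ∧ θ p ≤ 1) → ∀ t : ℝ, 0 ≤ t → t ≤ 1 →
      sh ρ T (E2 κ X) (x2 κ v κ₁ t X θ a) N ≤
        (4 * ell κ v t X θ ^ 2 - 8 * t * κ * ∑ p ∈ PB κ v X, θ p / p +
          C * (κ₁ + ((∫ u in Set.Ioi (0 : ℝ), g u) - 1 / Real.pi)) +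
          C * t ^ 2 * ∑ p ∈ PB κ v X, θ p / p) * cn (zz X) (KA ε₂ X) a + ε := by
  obtain ⟨Cb, hCb1, hCb⟩ := band_sum_pr
  obtain ⟨Cz, hCz1, hCz⟩ := vz_bound_pr
  set K : ℝ := (Cb + 1) * Cb with hK
  have hK0 : 0 ≤ K := by positivity
  set C : ℝ := 8 + 112 * Cz * (1 + K) + 8 * Cz * (Cb + 1) with hC
  refine ⟨C, ?_, ?_⟩
  · have h1 : 0 ≤ 112 * Cz * (1 + K) := by positivity
    have h2 : 0 ≤ 8 * Cz * (Cb + 1) := by positivity
    linarith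
  intro T ρ hρ g G hg hd hI κ κ₁ hκ hκv hκ₁ hκ₁' ε hε
  obtain ⟨g₁, C₁, -, -, hI1, hI2⟩ := kd_exists hρ hg hd
  have he0 : 0 ≤ (∫ u in Set.Ioi (0 : ℝ), g u) - 1 / Real.pi := by linarith
  set I₀ := ∫ u in Set.Ioi (0 : ℝ), g u with hI₀
  have hG := Kg_G_nonneg hg
  -- the errors
  set ε₃ : ℝ := ε / (|C₀| + 1) with hε₃
  have hε₃0 : 0 < ε₃ := by positivity
  set e : ℝ := min 1 (ε₃ / (8 * (1 + Cb))) with he
  have he0' : 0 < e := lt_min one_pos (by positivity)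
  have he1 : e ≤ 1 := min_le_left _ _
  have he2 : 8 * (1 + Cb) * e ≤ ε₃ := by
    have h1 : e ≤ ε₃ / (8 * (1 + Cb)) := min_le_right _ _
    rw [le_div_iff₀ (by positivity)] at h1
    linarith
  set η : ℝ := min 1 (ε₃ / (4 * Cz * (1 + K))) with hη
  have hη0 : 0 < η := lt_min one_pos (by positivity)
  have hη1 : η ≤ 1 := min_le_left _ _
  have hη2 : 4 * Cz * (1 + K) * η ≤ ε₃ := by
    have h1 : η ≤ ε₃ / (4 * Cz * (1 + K)) := min_le_right _ _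
    rw [le_div_iff₀ (by positivity)] at h1
    linarith
  obtain ⟨ε₁', hε₁', N₁, hN₁⟩ := sh_gen hρ hg hd hI hη0 hη1
  have hκ80 : κ ≤ 1 / 80 := by linarith
  have hκ1000 : κ ≤ 1 / 1000 := by linarith
  have hκ₁v : κ₁ < v - κ := by linarith
  obtain ⟨N₂, hN₂⟩ := hCz κ₁ (by linarith) (by linarith)
  obtain ⟨N₃, hN₃⟩ := hCz (v - κ) (by linarith) (by linarith)
  obtain ⟨N₄, hN₄⟩ := bf_diag_pr (δ := κ₁) (by linarith) (by linarith) he0'
  obtain ⟨N₅, hN₅⟩ := bf_cross_pr (δ₀ := κ₁) (δ₁ := v - κ) (v := v) (by linarith) (by linarith)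
    (by linarith) (by linarith) hκ₁v hv (by linarith) he0'
  obtain ⟨N₆, hN₆⟩ := fin_band hκ hκv hv' hκ₁ hκ₁'
  obtain ⟨N₇, hN₇⟩ := fin_len hκ hκ80
  obtain ⟨N₈, hN₈⟩ := hCb κ v hκ hκv hv'
  obtain ⟨N₉, hN₉⟩ := YE_le (δ := κ₁) (by linarith) (by linarith)
  obtain ⟨N₁₀, hN₁₀⟩ := YE_le (δ := v - κ) (by linarith) (by linarith)
  obtain ⟨N₁₁, hN₁₁⟩ := fin_decay hκ (16 * G * 4 * (2 * 10 ^ 5 * (1 + K))) he0'
  obtain ⟨N₁₂, hN₁₂⟩ := fin_log (max (40 / e) (4 / κ))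
  refine ⟨min ε₁' (κ / 4), lt_min hε₁' (by linarith), fun ε₂ hε₂ hε₂' => ?_⟩
  refine ⟨max (max (max N₁ N₂) (max N₃ N₄)) (max (max (max N₅ N₆) (max N₇ N₈))
    (max (max N₉ N₁₀) (max N₁₁ N₁₂))), fun X hX a ha hcn N hN hN' θ hθ t ht0 ht1 => ?_⟩
  simp only [max_le_iff] at hX
  obtain ⟨⟨⟨x1, x2'⟩, x3, x4⟩, ⟨⟨x5, x6⟩, x7, x8⟩, ⟨x9, x10⟩, x11, x12⟩ := hX
  obtain ⟨f1, f2, f3, f4, f5, f6, f7, f8, f9, f10⟩ := hN₆ X x6
  obtain ⟨g1, g2, g3, g4⟩ := hN₇ X x7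
  obtain ⟨g5, g6, g7⟩ := g1 ε₂ hε₂ (hε₂'.trans (min_le_right _ _))
  have hlog := hN₁₂ X x12
  rw [max_le_iff] at hlog
  set P := PB κ v X with hP
  set B := B2 κ X with hB
  set V0 := YE κ₁ X with hV0
  set V1 := YE (v - κ) X with hV1
  set Z := VZ P θ V1 with hZ
  set L := Real.log (X : ℝ) with hL
  set LN := Real.log (N : ℝ) with hLN
  set L0 := Real.log (MM κ₁ X : ℝ) with hL0
  set L1 := Real.log (MM (v - κ) X : ℝ) with hL1
  have hX1 : (1 : ℝ) ≤ X := by exact_mod_cast (show 1 ≤ 3 by norm_num).trans f1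
  have hX0 : (0 : ℝ) < X := by linarith
  have hL40 : 40 ≤ L := by
    have h1 := hlog.1
    rw [div_le_iff₀ he0'] at h1
    have h2 : 0 ≤ L := Real.log_nonneg hX1
    nlinarith
  have hN1 : 1 ≤ N := by omega
  have hNr : (1 : ℝ) ≤ N := by exact_mod_cast hN1
  have hl2 : Real.log 2 ≤ 7 / 10 := by
    have := Real.log_two_lt_d9
    linarith
  have hLN1 : L - 2 ≤ LN := by
    have h1 : (X : ℝ) ≤ 4 * N := by exact_mod_cast hN
    have h2 := Real.log_le_log hX0 h1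
    rw [Real.log_mul (by norm_num) (by positivity), show (4 : ℝ) = 2 ^ 2 by norm_num,
      Real.log_pow] at h2
    push_cast at h2
    linarith
  have hLN2 : LN ≤ L + 3 := by
    have h1 : (N : ℝ) ≤ 8 * X := by exact_mod_cast hN'
    have h2 := Real.log_le_log (by linarith) h1
    rw [Real.log_mul (by norm_num) (by positivity), show (8 : ℝ) = 2 ^ 3 by norm_num,
      Real.log_pow] at h2
    push_cast at h2
    linarith
  have hLN0 : 0 ≤ LN := by linarith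
  have hLN3 : LN ≤ 2 * L := by linarith
  have hL0p : 0 < L0 := Real.log_pos (by exact_mod_cast (show 1 < 2 by norm_num).trans_le f2)
  have hL1p : 0 < L1 := Real.log_pos (by exact_mod_cast (show 1 < 2 by norm_num).trans_le f3)
  obtain ⟨h1, h2, h3, h4⟩ := fin_x2 (a := a) (θ := θ) (t := t) f6
    (fun p hp => ⟨(f10 p hp).1, (f10 p hp).2.1, (f10 p hp).2.2.2.1⟩)
  obtain ⟨s1, s2, s3⟩ := fin_Th hθ (hN₈ X x8)
  set S := ∑ p ∈ P, θ p / (p : ℝ) with hS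
  have hVz0 := phi_Vz_pos (zz X)
  have hVz1 := WRS_Vz_le (zz X)
  have hcn0 := BGB_cn_nonneg (zz X) (KA ε₂ X) a
  set W := Vz (zz X) with hW
  set c := cn (zz X) (KA ε₂ X) a with hc
  have key := hN₁ X x1 (KA ε₂ X) a ha.sup g6 (g7.trans (Real.rpow_le_rpow_of_exponent_le hX1
    (hε₂'.trans (min_le_left _ _)))) B _ (by omega) h4 (E2 κ X) g5 g2 N hN1 (g3 N hN')
  rw [← h1] at key
  -- the first mollifier
  have hD : W * BFb B LN V0 V0 ≤ 4 + 8 * κ₁ + 2 * e := by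
    have k1 := (abs_le.1 (hN₄ X x4 B f6 LN hLN0 hLN3)).2
    have k2 : LN / L0 + 2 ≤ 4 + 8 * κ₁ + e :=
      fin_num1 hκ₁.le (by linarith) he0' he1 hlog.1 hLN2 (by have := (abs_le.1 f4).1; linarith) hL0p
    linarith
  -- the cross term
  have hcr : 4 * (∑ p ∈ P, θ p / p * (Real.log p / L1)) + 4 * κ * S - 2 * e * S ≤
      W * BFb B LN V0 Z := by
    rw [hZ, BFb_VZ, Finset.mul_sum, hS, Finset.mul_sum, Finset.mul_sum, Finset.mul_sum,
      ← Finset.sum_add_distrib, ← Finset.sum_sub_distrib]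
    refine Finset.sum_le_sum fun p hp => ?_
    obtain ⟨q1, q2, q3, q4, q5, q6, q7, q8, q9⟩ := f10 p hp
    have hp0 : (0 : ℝ) < p := by exact_mod_cast q1.pos
    have k1 := (abs_le.1 (hN₅ X x5 p q1 q5 q6 q7 B f6 q4 LN hLN0 hLN3)).1
    have k2 := fin_num2 (L := L) (LN := LN) (L0 := L0) (L1 := L1) (lp := Real.log p) (κ := κ)
      (κ₁ := κ₁) (v := v) (e := e) hκ hκ1000 hκ₁.le hκv hv' he0' he1 hlog.1 hlog.2 hLN1
      (by have := (abs_le.1 f4).2; linarith) hL0p (by have := (abs_le.1 f5).1; linarith)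
      (by have := (abs_le.1 f5).2; linarith) q8 q9
    have k3 : 4 * (Real.log p / L1) + 4 * κ - 2 * e ≤ p * (W * BFb B LN V0 (VT p V1)) := by
      linarith
    have k4 : 0 ≤ θ p / p := div_nonneg (hθ p hp).1 hp0.le
    have k5 := mul_le_mul_of_nonneg_left k3 k4
    have k6 : θ p / p * (p * (W * BFb B LN V0 (VT p V1))) =
        W * (θ p * BFb B LN V0 (VT p V1)) := by
      field_simp
    rw [k6] at k5
    linarith
  -- the bounds
  obtain ⟨u1, -⟩ := hN₂ X x2' P θ B f6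
  obtain ⟨-, u2⟩ := hN₃ X x3 P θ B f7
  have u3 := u2 (fun p hp => ⟨(f10 p hp).1, (f10 p hp).2.2.1, (f10 p hp).2.2.2.1⟩)
  rw [← hZ] at u3
  have u4 : W * (L * QF B phi Z Z + QF B phi (lg Z) (lg Z) / L) ≤ Cz * ((Cb + 1) * S) :=
    u3.trans (mul_le_mul_of_nonneg_left s3 (by linarith))
  have hZZ : W * BFb B LN Z Z ≤ 8 * Cz * ((Cb + 1) * S) := by
    have k1 := mul_le_mul_of_nonneg_left (fin_ZZ f8 f1 hLN3 Z) hVz0.le
    linarith
  set V : ℕ → ℝ := fun d => V0 d - t * Z d with hV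
  have ht2 : t ^ 2 ≤ 1 := by nlinarith
  have hU : W * (L * QF B phi V V + QF B phi (lg V) (lg V) / L) ≤
      2 * Cz + 2 * Cz * ((Cb + 1) * S) := by
    have k1 : QF B phi V V ≤ 2 * QF B phi V0 V0 + 2 * t ^ 2 * QF B phi Z Z :=
      QF_sub_le phi_nonneg' B V0 Z t
    have k2 : QF B phi (lg V) (lg V) ≤ 2 * QF B phi (lg V0) (lg V0) +
        2 * t ^ 2 * QF B phi (lg Z) (lg Z) := by
      rw [hV, lg_lin]
      exact QF_sub_le phi_nonneg' B (lg V0) (lg Z) t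
    have hLp : 0 < L := by linarith
    have k3 : L * QF B phi V V + QF B phi (lg V) (lg V) / L ≤
        2 * (L * QF B phi V0 V0 + QF B phi (lg V0) (lg V0) / L) +
        2 * t ^ 2 * (L * QF B phi Z Z + QF B phi (lg Z) (lg Z) / L) := by
      have k4 := mul_le_mul_of_nonneg_left k1 hLp.le
      have k5 := div_le_div_of_nonneg_right k2 hLp.le
      rw [add_div, mul_div_assoc, mul_div_assoc] at k5
      linarith
    have k6 := mul_le_mul_of_nonneg_left k3 hVz0.le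
    have k7 : t ^ 2 * (W * (L * QF B phi Z Z + QF B phi (lg Z) (lg Z) / L)) ≤
        1 * (Cz * ((Cb + 1) * S)) := by
      have k8 : 0 ≤ W * (L * QF B phi Z Z + QF B phi (lg Z) (lg Z) / L) := by
        have k9 : 0 ≤ QF B phi Z Z := QF_nonneg phi_nonneg' B Z
        have k10 : 0 ≤ QF B phi (lg Z) (lg Z) := QF_nonneg phi_nonneg' B (lg Z)
        positivity
      exact mul_le_mul ht2 u4 k8 zero_le_one
    linarith
  -- the third term
  have hThK : Th P θ ≤ K := by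
    refine s3.trans ?_
    rw [hK]
    exact mul_le_mul_of_nonneg_left s2 (by linarith)
  have hF : W * (16 * G * ((B : ℝ) / E2 κ X) ^ 2 * aV B V) ≤ e := by
    have hlB : Real.log B ≤ L :=
      Real.log_le_log (by exact_mod_cast (show 0 < 2 by norm_num).trans_le f9) (by exact_mod_cast f8)
    have hlB0 : 0 ≤ Real.log B := Real.log_natCast_nonneg B
    have hlB10 : Real.log B ^ 10 ≤ L ^ 10 := pow_le_pow_left₀ hlB0 hlB 10
    have k1 : aV B V0 ≤ 10 ^ 5 * L ^ 10 :=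
      (aV_one_pr f9 h2 (hN₉ X x9)).trans (by linarith)
    have r1 : RVec (zz X) (2 * MM (v - κ) X) V1 := RVec_yE (by norm_num)
    have k2 : aV B Z ≤ 10 ^ 5 * L ^ 10 * K := by
      have k3 := aV_VZ_pr (B := 2 * MM (v - κ) X) (B' := B) (by omega) r1 (hN₁₀ X x10) (P := P)
        (fun p hp => ⟨(f10 p hp).1, (f10 p hp).2.2.2.1⟩) θ
      refine k3.trans ?_
      have k4 : (10 : ℝ) ^ 5 * Real.log B ^ 10 * Th P θ ≤ 10 ^ 5 * Real.log B ^ 10 * K :=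
        mul_le_mul_of_nonneg_left hThK (by positivity)
      have k5 : (10 : ℝ) ^ 5 * Real.log B ^ 10 * K ≤ 10 ^ 5 * L ^ 10 * K :=
        mul_le_mul_of_nonneg_right (by linarith) hK0
      linarith
    have k6 : aV B V ≤ 2 * 10 ^ 5 * (1 + K) * L ^ 10 := by
      have k7 := aV_sub_le B V0 Z ht0
      have k8 : t ^ 2 * aV B Z ≤ 1 * (10 ^ 5 * L ^ 10 * K) := by
        refine mul_le_mul ht2 k2 ?_ zero_le_one
        unfold aV
        exact Finset.sum_nonneg fun _ _ => Finset.sum_nonneg fun _ _ => by positivity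
      have k9 : aV B V ≤ 2 * aV B V0 + 2 * t ^ 2 * aV B Z := k7
      linarith
    have k0 : 0 ≤ aV B V := by
      unfold aV
      exact Finset.sum_nonneg fun _ _ => Finset.sum_nonneg fun _ _ => by positivity
    have k10 : 16 * G * ((B : ℝ) / E2 κ X) ^ 2 * aV B V ≤
        16 * G * (4 * (X : ℝ) ^ (-κ)) * (2 * 10 ^ 5 * (1 + K) * L ^ 10) := by
      refine mul_le_mul ?_ k6 k0 (by positivity)
      exact mul_le_mul_of_nonneg_left g4 (by positivity)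
    have k11 : 0 ≤ 16 * G * ((B : ℝ) / E2 κ X) ^ 2 * aV B V := by positivity
    have k12 := hN₁₁ X x11
    calc W * (16 * G * ((B : ℝ) / E2 κ X) ^ 2 * aV B V) ≤
          1 * (16 * G * ((B : ℝ) / E2 κ X) ^ 2 * aV B V) := mul_le_mul_of_nonneg_right hVz1 k11
      _ ≤ 16 * G * (4 * (X : ℝ) ^ (-κ)) * (2 * 10 ^ 5 * (1 + K) * L ^ 10) := by
          rw [one_mul]
          exact k10
      _ = 16 * G * 4 * (2 * 10 ^ 5 * (1 + K)) * ((X : ℝ) ^ (-κ) * L ^ 10) := by ring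
      _ ≤ e := k12
  -- the algebra
  have hell : ell κ v t X θ = 1 - t * ∑ p ∈ P, θ p / p * (Real.log p / L1) := rfl
  have fin := fin_alg hCz1 hCb1 hK he0 hη0.le he0'.le hκ hκ₁.le ht0 ht1 s1 s2 hell hC hD hcr hZZ
    hU hF
  have hpoly := bf_poly_pr B LN V0 Z t
  rw [← hV] at hpoly
  rw [hpoly] at key
  have hsum : W * c * (BFb B LN V0 V0 - 2 * t * BFb B LN V0 Z + t ^ 2 * BFb B LN Z Z +
      (56 * (I₀ - 1 / Real.pi) + η) * (L * QF B phi V V + QF B phi (lg V) (lg V) / L) +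
      16 * G * ((B : ℝ) / E2 κ X) ^ 2 * aV B V) =
      (W * BFb B LN V0 V0 - 2 * t * (W * BFb B LN V0 Z) + t ^ 2 * (W * BFb B LN Z Z) +
        (56 * (I₀ - 1 / Real.pi) + η) * (W * (L * QF B phi V V + QF B phi (lg V) (lg V) / L)) +
        W * (16 * G * ((B : ℝ) / E2 κ X) ^ 2 * aV B V)) * c := by ring
  rw [hsum] at key
  have hm := mul_le_mul_of_nonneg_right fin hcn0
  have herr : (2 * η * Cz * (1 + K) + 4 * e * (1 + Cb)) * c ≤ ε := by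
    have k1 : 2 * η * Cz * (1 + K) + 4 * e * (1 + Cb) ≤ ε₃ := by linarith
    have k2 : c ≤ |C₀| := hcn.trans (le_abs_self _)
    calc (2 * η * Cz * (1 + K) + 4 * e * (1 + Cb)) * c ≤ ε₃ * c :=
          mul_le_mul_of_nonneg_right k1 hcn0
      _ ≤ ε₃ * |C₀| := mul_le_mul_of_nonneg_left k2 hε₃0.le
      _ ≤ ε := by
          rw [hε₃, div_mul_eq_mul_div, div_le_iff₀ (by positivity)]
          have := abs_nonneg C₀
          nlinarith
  refine key.trans (hm.trans ?_)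
  rw [add_mul]
  linarith

end Pool.Agent.LSP
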